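import Pool.Agent.H34.CGS.Stmts

/-! Row PAL of the board cgs (MP_286349_an). -/

set_option autoImplicit false

noncomputable section

namespace Pool.CGS

open Pool.CGR

namespace PALx

theorem pe_eq {α A : Type} [Ring A] [Algebra ℂ A] (x : α → A) (P : List α →₀ ℂ) :
    pe x P = Finsupp.linearCombination ℂ (fun w => ev x w) P := by
  rw [Finsupp.linearCombination_apply]; rfl

theorem dp_eq {α A : Type} [DecidableEq α] [Ring A] [Algebra ℂ A] (τ : A →ₗ[ℂ] ℂ) (x : α → A)
    (i : α) (P : List α →₀ ℂ) :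
    dp τ x i P = Finsupp.linearCombination ℂ (fun w => dq (fun w => τ (ev x w)) i w) P := by
  rw [Finsupp.linearCombination_apply]; rfl

theorem cp_eq {α A : Type} [DecidableEq α] [Ring A] [Algebra ℂ A] (x : α → A) (i : α)
    (P : List α →₀ ℂ) :
    cp x i P = Finsupp.linearCombination ℂ (fun w => cg x i w) P := by
  rw [Finsupp.linearCombination_apply]; rfl

theorem pe_single {α A : Type} [Ring A] [Algebra ℂ A] (x : α → A) (w : List α) (r : ℂ) :
    pe x (Finsupp.single w r) = r • ev x w := by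
  rw [pe_eq, Finsupp.linearCombination_single]

theorem pe_add {α A : Type} [Ring A] [Algebra ℂ A] (x : α → A) (P Q : List α →₀ ℂ) :
    pe x (P + Q) = pe x P + pe x Q := by
  rw [pe_eq, pe_eq, pe_eq, map_add]

theorem pe_smul {α A : Type} [Ring A] [Algebra ℂ A] (x : α → A) (r : ℂ) (P : List α →₀ ℂ) :
    pe x (r • P) = r • pe x P := by
  rw [pe_eq, pe_eq, map_smul]

theorem pe_zero {α A : Type} [Ring A] [Algebra ℂ A] (x : α → A) :
    pe x (0 : List α →₀ ℂ) = 0 := by
  rw [pe_eq, map_zero]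

theorem ev_append {α A : Type} [Ring A] (x : α → A) (u v : List α) :
    ev x (u ++ v) = ev x u * ev x v := by
  unfold ev
  rw [List.map_append, List.prod_append]

theorem mul_ex {α A : Type} [Ring A] [Algebra ℂ A] (x : α → A) (P Q : List α →₀ ℂ) :
    ∃ R : List α →₀ ℂ, pe x R = pe x P * pe x Q := by
  induction P using Finsupp.induction_linear with
  | zero => exact ⟨0, by rw [pe_zero, zero_mul]⟩
  | add P₁ P₂ h₁ h₂ =>
    obtain ⟨R₁, h₁⟩ := h₁
    obtain ⟨R₂, h₂⟩ := h₂
    exact ⟨R₁ + R₂, by rw [pe_add, pe_add, h₁, h₂, add_mul]⟩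
  | single u r =>
    induction Q using Finsupp.induction_linear with
    | zero => exact ⟨0, by rw [pe_zero, mul_zero]⟩
    | add Q₁ Q₂ h₁ h₂ =>
      obtain ⟨R₁, h₁⟩ := h₁
      obtain ⟨R₂, h₂⟩ := h₂
      exact ⟨R₁ + R₂, by rw [pe_add, pe_add, h₁, h₂, mul_add]⟩
    | single v s =>
      refine ⟨Finsupp.single (u ++ v) (r * s), ?_⟩
      rw [pe_single, pe_single, pe_single, ev_append, smul_mul_smul_comm]

theorem sum_ex {α A ι : Type} [Ring A] [Algebra ℂ A] (x : α → A) (s : Finset ι) (f : ι → A)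
    (h : ∀ k ∈ s, ∃ R : List α →₀ ℂ, pe x R = f k) :
    ∃ R : List α →₀ ℂ, pe x R = ∑ k ∈ s, f k := by
  classical
  induction s using Finset.induction_on with
  | empty => exact ⟨0, by rw [pe_zero, Finset.sum_empty]⟩
  | insert a t ha ih =>
    obtain ⟨R₁, h₁⟩ := ih fun k hk => h k (Finset.mem_insert_of_mem hk)
    obtain ⟨R₂, h₂⟩ := h a (Finset.mem_insert_self a t)
    exact ⟨R₂ + R₁, by rw [pe_add, h₁, h₂, Finset.sum_insert ha]⟩

theorem cg_ex {α A : Type} [DecidableEq α] [Ring A] [Algebra ℂ A] (x : α → A) (i : α)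
    (w : List α) : ∃ R : List α →₀ ℂ, pe x R = cg x i w := by
  unfold cg
  apply sum_ex
  intro k _
  split_ifs with hk
  · exact ⟨Finsupp.single (w.drop (k + 1) ++ w.take k) 1, by rw [pe_single, one_smul]⟩
  · exact ⟨0, pe_zero x⟩

theorem cp_ex {α A : Type} [DecidableEq α] [Ring A] [Algebra ℂ A] (x : α → A) (i : α)
    (P : List α →₀ ℂ) : ∃ R : List α →₀ ℂ, pe x R = cp x i P := by
  unfold cp Finsupp.sum
  apply sum_ex
  intro w _
  obtain ⟨R, hR⟩ := cg_ex x i w
  exact ⟨P w • R, by rw [pe_smul, hR]⟩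

theorem star_ev {α A : Type} [CStarAlgebra A] (x : α → A) (hx : ∀ i, IsSelfAdjoint (x i))
    (w : List α) : star (ev x w) = ev x w.reverse := by
  induction w with
  | nil => simp [ev]
  | cons i w ih =>
    have h1 : ev x (i :: w) = x i * ev x w := by
      unfold ev
      rw [List.map_cons, List.prod_cons]
    have h2 : ev x [i] = x i := by simp [ev]
    rw [h1, star_mul, ih, (hx i).star_eq, List.reverse_cons, ev_append, h2]

end PALx

theorem pal_thm : PALStmt := by
  intro α A _ _ τ x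
  refine ⟨?_, ?_, ?_, ?_, ?_, ?_⟩
  · intro P Q
    refine ⟨PALx.pe_add x P Q, ?_⟩
    rw [PALx.pe_eq, PALx.pe_eq, PALx.pe_eq, map_sub]
  · intro i P Q
    rw [PALx.dp_eq, PALx.dp_eq, PALx.dp_eq, map_add]
  · intro r P
    refine ⟨PALx.pe_smul x r P, ?_⟩
    intro i
    refine ⟨?_, ?_⟩
    · rw [PALx.dp_eq, PALx.dp_eq, map_smul, smul_eq_mul]
    · rw [PALx.cp_eq, PALx.cp_eq, map_smul]
  · intro P Q
    exact PALx.mul_ex x P Q
  · intro i P
    exact PALx.cp_ex x i P
  · intro hx P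
    unfold pe Finsupp.sum
    rw [star_sum]
    obtain ⟨R, hR⟩ := PALx.sum_ex x P.support (fun w => star (P w • ev x w)) (by
      intro w _
      refine ⟨Finsupp.single w.reverse (star (P w)), ?_⟩
      rw [PALx.pe_single, star_smul, PALx.star_ev x hx])
    exact ⟨R, hR⟩

end Pool.CGS
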